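import Pool.Agent.P.MP_6e04fb_lc.Forcing

open FirstOrder Pool.Agent.P.MP_6e04fb_lc

namespace Pool.Agent.Results.MP_6e04fb_lc.CCC3PreservesOmegaOne

/-- In every model `M` of ZF, a forcing with the property that each predense set contains a
countable predense subset does not collapse `ω₁`: the `ω₁` of `M` is uncountable in every generic
extension `N = M[G]`. -/
theorem result {M N : Type*} [Language.graph.Structure M] [Language.graph.Structure N]
    (hM : IsZF M) (P R one : M) (hP : IsForcing P R one) (hc : CCC3 P R)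
    (w : M) (hw : IsOmegaOne w)
    (hN : IsZF N) (j : M ↪[Language.graph] N) (G : N) (hG : IsGenericExt j P R G) :
    ¬Ctbl (j w) :=
  haveI : Fact (IsZF M) := ⟨hM⟩
  haveI : Fact (IsZF N) := ⟨hN⟩
  hG.not_ctbl hP hc hw.2.1 hw.2.2.1

end Pool.Agent.Results.MP_6e04fb_lc.CCC3PreservesOmegaOne
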