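import Pool.Agent.P.MP_6e04fb_lc.UForcing

open FirstOrder Pool.Agent.P.MP_6e04fb_lc

namespace Pool.Agent.Results.MP_6e04fb_lc.CountableMeansUnionOfFinite

/-- Let `M` be a model of ZF, `P` a forcing in `M` in which each predense set contains a countable
predense subset, and `N = M[G]` a generic extension. Every set `X` of `M` (well-orderable or not)
which is countable in `N` is, in `M`, the union of a countable family of finite sets. -/
theorem result {M N : Type*} [Language.graph.Structure M] [Language.graph.Structure N]
    (hM : IsZF M) (P R one : M) (hP : IsForcing P R one) (hc : CCC3 P R)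
    (hN : IsZF N) (j : M ↪[Language.graph] N) (G : N) (hG : IsGenericExt j P R G)
    (X : M) (hX : Ctbl (j X)) :
    CtblUnionFin X :=
  haveI : Fact (IsZF M) := ⟨hM⟩
  haveI : Fact (IsZF N) := ⟨hN⟩
  hG.cuf hP hc hX

end Pool.Agent.Results.MP_6e04fb_lc.CountableMeansUnionOfFinite
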