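import Pool.Agent.P.MP_6e04fb_lc.UForcing

open FirstOrder Pool.Agent.P.MP_6e04fb_lc

namespace Pool.Agent.Results.MP_6e04fb_lc.NewSetKeepsUncountable

/-- Let `M` be a model of ZF, `P` a forcing in `M` in which each predense set contains a countable
predense subset, and `N = M[G]` a generic extension which contains a subset `y` of an ordinal `A`
of `M` with `y` not in `M` (for instance a new real). Then every set `X` of `M` (well-orderable or
not) which is uncountable in `M` is uncountable in `N`. -/
theorem result {M N : Type*} [Language.graph.Structure M] [Language.graph.Structure N]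
    (hM : IsZF M) (P R one : M) (hP : IsForcing P R one) (hc : CCC3 P R)
    (hN : IsZF N) (j : M ↪[Language.graph] N) (G : N) (hG : IsGenericExt j P R G)
    (A : M) (hA : IsOrd A) (y : N) (hy : Sub y (j A)) (hnew : ∀ z : M, y ≠ j z)
    (X : M) (hX : ¬Ctbl X) :
    ¬Ctbl (j X) :=
  haveI : Fact (IsZF M) := ⟨hM⟩
  haveI : Fact (IsZF N) := ⟨hN⟩
  hG.not_ctbl_of_new hP hc hA.2 hy hnew hX

end Pool.Agent.Results.MP_6e04fb_lc.NewSetKeepsUncountable
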